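import Pool.Agent.Lib_helper24.MET.UPA

/-! # MP_760942_al, block ARR12 -/

set_option autoImplicit false

namespace Pool.Agent.MET

open scoped commutatorElement

theorem arr_qq_one {G : Type*} [Group G] : (qq (1 : G) : ZQ G) = 1 := by
  unfold qq
  rw [map_one]
  rfl

theorem arr_qq_mem {G : Type*} [Group G] {m : G} (hm : m ∈ commutator G) : (qq m : ZQ G) = 1 := by
  unfold qq
  have h : (Abelianization.of m : Abelianization G) = 1 := by
    rw [← MonoidHom.mem_ker, Abelianization.ker_of]
    exact hm
  rw [h]
  rfl

theorem arr_of_eq {G : Type*} [Group G] {g h : G} (e : (qq g : ZQ G) = qq h) :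
    (Abelianization.of g : Abelianization G) = Abelianization.of h := by
  unfold qq at e
  have h1 := congrArg (fun a : ZQ G => a.coeff (Abelianization.of g)) e
  by_contra hne
  simp [MonoidAlgebra.coeff_single, Ne.symm hne] at h1

theorem arr_dd_one {G : Type*} [Group G] : (dd (1 : G) : AG G) = 0 := by
  have h := dd_mul (1 : G) 1
  rw [mul_one, arr_qq_one, one_smul] at h
  exact (left_eq_add.1 h)

/-- ARR1 (from UPA) -/
theorem dd_inj {G : Type*} [Group G] (hG : derivedSeries G 2 = ⊥) : Function.Injective (dd : G → AG G) := by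
  classical
  intro g h hgh
  -- the quotient
  have hq : (qq g : ZQ G) = qq h := by
    have h1 := congrArg (bd G) hgh
    rw [bd_dd, bd_dd] at h1
    exact sub_left_injective h1
  have hof := arr_of_eq hq
  obtain ⟨m, hm⟩ : ∃ m, m = g * h⁻¹ := ⟨_, rfl⟩
  have hmof : (Abelianization.of m : Abelianization G) = 1 := by
    rw [hm, map_mul, map_inv, hof, mul_inv_cancel]
  have hmc : m ∈ commutator G := by
    rw [← Abelianization.ker_of, MonoidHom.mem_ker]; exact hmof
  have hg : g = m * h := by rw [hm, inv_mul_cancel_right]
  have hdm : (dd m : AG G) = 0 := by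
    have h1 := dd_mul m h
    rw [← hg, arr_qq_mem hmc, one_smul, hgh] at h1
    exact right_eq_add.1 h1
  -- commutativity of the commutator subgroup
  have hcomm : ∀ a b : commutator G, a * b = b * a := by
    intro a b
    have h1 : ⁅(a : G), (b : G)⁆ ∈ derivedSeries G 2 := by
      show _ ∈ ⁅derivedSeries G 1, derivedSeries G 1⁆
      rw [derivedSeries_one]
      exact Subgroup.commutator_mem_commutator a.2 b.2
    rw [hG, Subgroup.mem_bot, commutatorElement_eq_one_iff_mul_comm] at h1
    exact Subtype.ext h1
  let _ : CommGroup (commutator G) := { (inferInstance : Group (commutator G)) with mul_comm := hcomm }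
  -- the section
  obtain ⟨s, hs1, hs⟩ : ∃ s : Abelianization G → G, s 1 = 1 ∧ ∀ q, Abelianization.of (s q) = q := by
    have h1 : ∀ q : Abelianization G, ∃ g : G, Abelianization.of g = q := fun q =>
      QuotientGroup.mk_surjective q
    choose s0 hs0 using h1
    refine ⟨fun q => if q = 1 then 1 else s0 q, if_pos rfl, fun q => ?_⟩
    by_cases hq1 : q = 1
    · simp [hq1]
    · simp only [hq1, if_false]
      exact hs0 q
  have hmem : ∀ (x : G) (p : Abelianization G),
      s p * x * (s (p * Abelianization.of x))⁻¹ ∈ commutator G := by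
    intro x p
    rw [← Abelianization.ker_of, MonoidHom.mem_ker, map_mul, map_mul, map_inv, hs, hs, mul_inv_cancel]
  let δ : G → (Abelianization G → Additive (commutator G)) := fun x p =>
    Additive.ofMul ⟨s p * x * (s (p * Abelianization.of x))⁻¹, hmem x p⟩
  let τ : Abelianization G → (Abelianization G → Additive (commutator G)) →+
      (Abelianization G → Additive (commutator G)) := fun q =>
    { toFun := fun f p => f (p * q)
      map_zero' := rfl
      map_add' := fun _ _ => rfl }
  obtain ⟨f, hf, -⟩ := upa τ
    (fun x => by funext p; show x (p * 1) = x p; rw [mul_one])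
    (fun q q' x => by funext p; show x (p * (q * q')) = x (p * q * q'); rw [mul_assoc]) δ
    (fun a b => by
      funext p
      apply Additive.toMul.injective
      apply Subtype.ext
      show s p * (a * b) * (s (p * Abelianization.of (a * b)))⁻¹ =
        s p * a * (s (p * Abelianization.of a))⁻¹ *
        (s (p * Abelianization.of a) * b * (s (p * Abelianization.of a * Abelianization.of b))⁻¹)
      rw [map_mul, mul_assoc p]
      group)
  have h1 : δ m 1 = 0 := by
    rw [← hf m, hdm, map_zero]
    rfl
  have h2 : (1 : G) * m * (s (1 * Abelianization.of m))⁻¹ = 1 := by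
    have h3 := congrArg (fun z : Additive (commutator G) => ((Additive.toMul z : commutator G) : G)) h1
    have h4 : s 1 * m * (s (1 * Abelianization.of m))⁻¹ = 1 := h3
    rwa [hs1] at h4
  rw [one_mul, one_mul, hmof, hs1, inv_one, mul_one] at h2
  rw [hg, h2, one_mul]

/-- ARR2 (from UPA) -/
theorem dd_exact {G : Type*} [Group G] (a : AG G) (q : Abelianization G)
    (h : bd G a = MonoidAlgebra.single q (1 : ℤ) - 1) : ∃ g : G, Abelianization.of g = q ∧ dd g = a := by
  classical
  obtain ⟨s, hs1, hs⟩ : ∃ s : Abelianization G → G, s 1 = 1 ∧ ∀ q, Abelianization.of (s q) = q := by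
    have h1 : ∀ q : Abelianization G, ∃ g : G, Abelianization.of g = q := fun q =>
      QuotientGroup.mk_surjective q
    choose s0 hs0 using h1
    refine ⟨fun q => if q = 1 then 1 else s0 q, if_pos rfl, fun q => ?_⟩
    by_cases hq1 : q = 1
    · simp [hq1]
    · simp only [hq1, if_false]
      exact hs0 q
  let ψ : ZQ G →+ AG G :=
    (Finsupp.linearCombination ℤ (fun q : Abelianization G => (dd (s q) : AG G))).toAddMonoidHom.comp
      (MonoidAlgebra.coeffAddEquiv : ZQ G ≃+ (Abelianization G →₀ ℤ)).toAddMonoidHom
  have hψ : ∀ q : Abelianization G, ψ (MonoidAlgebra.single q (1 : ℤ)) = dd (s q) := by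
    intro q
    show Finsupp.linearCombination ℤ (fun q : Abelianization G => (dd (s q) : AG G))
      (MonoidAlgebra.single q (1 : ℤ)).coeff = dd (s q)
    rw [MonoidAlgebra.coeff_single, Finsupp.linearCombination_single, one_smul]
  -- the commutator subgroup
  have hadd : ∀ m ∈ commutator G, ∀ x : G, (dd (m * x) : AG G) = dd m + dd x := by
    intro m hm x
    rw [dd_mul, arr_qq_mem hm, one_smul]
  let K : AddSubgroup (AG G) :=
    { carrier := {a | ∃ m ∈ commutator G, a = dd m + ψ (bd G a)}
      zero_mem' := ⟨1, one_mem _, by rw [arr_dd_one, map_zero, map_zero, add_zero]⟩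
      add_mem' := by
        rintro a b ⟨m, hm, ha⟩ ⟨m', hm', hb⟩
        refine ⟨m * m', mul_mem hm hm', ?_⟩
        rw [hadd m hm, map_add, map_add]
        nth_rewrite 1 [ha]
        nth_rewrite 1 [hb]
        abel
      neg_mem' := by
        rintro a ⟨m, hm, ha⟩
        refine ⟨m⁻¹, inv_mem hm, ?_⟩
        have h1 : (dd m⁻¹ : AG G) = -dd m := by
          have h2 := hadd m⁻¹ (inv_mem hm) m
          rw [inv_mul_cancel, arr_dd_one] at h2
          exact (neg_eq_of_add_eq_zero_left h2.symm).symm
        rw [h1, map_neg, map_neg]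
        nth_rewrite 1 [ha]
        abel }
  have key : ∀ (c : ZQ G) (g : G), c • (dd g : AG G) ∈ K := by
    intro c g
    refine upa_ind (motive := fun c => c • (dd g : AG G) ∈ K) c ?_ ?_ ?_ ?_
    · rw [zero_smul]; exact K.zero_mem
    · intro a b ha hb
      rw [add_smul]; exact K.add_mem ha hb
    · intro a ha
      rw [neg_smul]; exact K.neg_mem ha
    · intro q
      obtain ⟨m, hm⟩ : ∃ m, m = s q * g * (s (q * Abelianization.of g))⁻¹ := ⟨_, rfl⟩
      have hmc : m ∈ commutator G := by
        rw [← Abelianization.ker_of, MonoidHom.mem_ker, hm, map_mul, map_mul, map_inv, hs, hs,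
          mul_inv_cancel]
      have e1 : s q * g = m * s (q * Abelianization.of g) := by rw [hm, inv_mul_cancel_right]
      have e2 : (qq (s q) : ZQ G) = MonoidAlgebra.single q (1 : ℤ) := by unfold qq; rw [hs]
      have e3 : (dd (s q) : AG G) + (MonoidAlgebra.single q (1 : ℤ) : ZQ G) • dd g =
          dd m + dd (s (q * Abelianization.of g)) := by
        rw [← e2, ← dd_mul, e1, hadd m hmc]
      have e4 : bd G ((MonoidAlgebra.single q (1 : ℤ) : ZQ G) • (dd g : AG G)) =
          MonoidAlgebra.single (q * Abelianization.of g) (1 : ℤ) - MonoidAlgebra.single q (1 : ℤ) := by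
        rw [map_smul, bd_dd, smul_eq_mul, mul_sub, mul_one]
        unfold qq
        rw [MonoidAlgebra.single_mul_single, one_mul]
      refine ⟨m, hmc, ?_⟩
      rw [e4, map_sub, hψ, hψ]
      rw [← sub_eq_zero] at e3 ⊢
      rw [← e3]
      abel
  have hall : ∀ a : AG G, a ∈ K := by
    intro a
    obtain ⟨x, rfl⟩ := Submodule.Quotient.mk_surjective _ a
    induction x using Finsupp.induction_linear with
    | zero => rw [Submodule.Quotient.mk_zero]; exact K.zero_mem
    | add x y hx hy =>
      rw [Submodule.Quotient.mk_add]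
      exact K.add_mem hx hy
    | single g a =>
      have e : (Submodule.Quotient.mk (Finsupp.single g a) : AG G) = a • dd g := by
        unfold dd
        rw [← Submodule.Quotient.mk_smul, Finsupp.smul_single, smul_eq_mul, mul_one]
      rw [e]; exact key a g
  obtain ⟨m, hm, ha⟩ := hall a
  rw [h, map_sub, hψ] at ha
  have e5 : ψ 1 = 0 := by
    have := hψ 1
    rw [hs1, arr_dd_one] at this
    exact this
  rw [e5, sub_zero, ← hadd m hm] at ha
  refine ⟨m * s q, ?_, ha.symm⟩
  have h3 : (Abelianization.of m : Abelianization G) = 1 := by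
    rw [← MonoidHom.mem_ker, Abelianization.ker_of]
    exact hm
  rw [map_mul, h3, one_mul, hs]

end Pool.Agent.MET
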