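import Pool.Agent.Lib_helper24.MET.ARR12

/-! # MP_760942_al, block ARR34 -/

set_option autoImplicit false

namespace Pool.Agent.MET

theorem arr_map_single {G G' : Type*} [Group G] [Group G'] (θ : Abelianization G →* Abelianization G')
    (q : Abelianization G) : MonoidAlgebra.mapDomainRingHom ℤ θ (MonoidAlgebra.single q (1 : ℤ) : ZQ G) =
      (MonoidAlgebra.single (θ q) (1 : ℤ) : ZQ G') := by
  simp

/-- functoriality of `AG` -/
theorem arr_fun {G G' : Type*} [Group G] [Group G'] (e : G →* G') :
    ∃ f : AG G →+ AG G', (∀ g, f (dd g) = dd (e g)) ∧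
      ∀ q m, f ((MonoidAlgebra.single q (1 : ℤ) : ZQ G) • m) =
        (MonoidAlgebra.single (Abelianization.map e q) (1 : ℤ) : ZQ G') • f m := by
  let τ : Abelianization G → AG G' →+ AG G' := fun q =>
    { toFun := fun m => (MonoidAlgebra.single (Abelianization.map e q) (1 : ℤ) : ZQ G') • m
      map_zero' := smul_zero _
      map_add' := fun _ _ => smul_add _ _ _ }
  obtain ⟨f, h1, h2⟩ := upa τ
    (fun x => by
      show (MonoidAlgebra.single (Abelianization.map e 1) (1 : ℤ) : ZQ G') • x = x
      rw [map_one]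
      exact one_smul _ x)
    (fun q q' x => by
      show (MonoidAlgebra.single (Abelianization.map e (q * q')) (1 : ℤ) : ZQ G') • x =
        (MonoidAlgebra.single (Abelianization.map e q) (1 : ℤ) : ZQ G') •
          (MonoidAlgebra.single (Abelianization.map e q') (1 : ℤ) : ZQ G') • x
      rw [smul_smul, MonoidAlgebra.single_mul_single, one_mul, map_mul])
    (fun g => (dd (e g) : AG G'))
    (fun g h => by
      show (dd (e (g * h)) : AG G') = dd (e g) +
        (MonoidAlgebra.single (Abelianization.map e (Abelianization.of g)) (1 : ℤ) : ZQ G') • dd (e h)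
      rw [map_mul, dd_mul, Abelianization.map_of]
      rfl)
  exact ⟨f, h1, h2⟩

/-- ARR3 (from UPA) -/
theorem arr_mp {G G' : Type*} [Group G] [Group G'] (e : G ≃* G') : ArrIso G G' := by
  obtain ⟨f, f1, f2⟩ := arr_fun e.toMonoidHom
  obtain ⟨f', f1', f2'⟩ := arr_fun e.symm.toMonoidHom
  have hθ : ∀ q, Abelianization.map e.symm.toMonoidHom (Abelianization.map e.toMonoidHom q) = q := by
    intro q
    obtain ⟨g, rfl⟩ := QuotientGroup.mk_surjective q
    show Abelianization.map e.symm.toMonoidHom (Abelianization.map e.toMonoidHom (Abelianization.of g)) =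
      Abelianization.of g
    rw [Abelianization.map_of, Abelianization.map_of]
    simp
  have hθ' : ∀ q, Abelianization.map e.toMonoidHom (Abelianization.map e.symm.toMonoidHom q) = q := by
    intro q
    obtain ⟨g, rfl⟩ := QuotientGroup.mk_surjective q
    show Abelianization.map e.toMonoidHom (Abelianization.map e.symm.toMonoidHom (Abelianization.of g)) =
      Abelianization.of g
    rw [Abelianization.map_of, Abelianization.map_of]
    simp
  have h1 : f'.comp f = AddMonoidHom.id _ := by
    apply ag_ext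
    intro q g
    show f' (f _) = _
    rw [f2, f1, f2', f1', hθ]
    simp
  have h2 : f.comp f' = AddMonoidHom.id _ := by
    apply ag_ext
    intro q g
    show f (f' _) = _
    rw [f2', f1', f2, f1, hθ']
    simp
  let θ : Abelianization G ≃* Abelianization G' :=
    { toFun := Abelianization.map e.toMonoidHom
      invFun := Abelianization.map e.symm.toMonoidHom
      left_inv := hθ
      right_inv := hθ'
      map_mul' := map_mul _ }
  refine ⟨θ, { toFun := f
               invFun := f'
               left_inv := fun x => DFunLike.congr_fun h1 x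
               right_inv := fun x => DFunLike.congr_fun h2 x
               map_add' := map_add f }, 1, f2, fun a => ?_⟩
  have h3 : ((bd G' : AG G' →ₗ[ZQ G'] ZQ G').toAddMonoidHom.comp f) =
      ((MonoidAlgebra.mapDomainRingHom ℤ θ.toMonoidHom : ZQ G →+* ZQ G') : ZQ G →+ ZQ G').comp
        (bd G : AG G →ₗ[ZQ G] ZQ G).toAddMonoidHom := by
    apply ag_ext
    intro q g
    show bd G' (f _) = MonoidAlgebra.mapDomainRingHom ℤ θ.toMonoidHom (bd G _)
    rw [f2, f1, map_smul, map_smul, bd_dd, bd_dd, smul_eq_mul, smul_eq_mul, map_mul, map_sub, map_one,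
      arr_map_single]
    unfold qq
    rw [arr_map_single]
    congr 2
  rw [Units.val_one, one_mul]
  exact DFunLike.congr_fun h3 a

/-- ARR4 (from UPA, ARR1, ARR2) -/
theorem arr_mpr {G G' : Type*} [Group G] [Group G'] (hG : derivedSeries G 2 = ⊥) (hG' : derivedSeries G' 2 = ⊥)
    (h : ArrIso G G') : Nonempty (G ≃* G') := by
  classical
  obtain ⟨θ, α, η, h1, h2⟩ := h
  -- normalise the unit
  obtain ⟨β, hβ⟩ : ∃ β : AG G → AG G', ∀ a, β a = ((η⁻¹ : (ZQ G')ˣ) : ZQ G') • α a := ⟨_, fun _ => rfl⟩
  have hβη : ∀ a, (η : ZQ G') • β a = α a := by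
    intro a
    rw [hβ, smul_smul, Units.mul_inv, one_smul]
  have b1 : ∀ (q : Abelianization G) (m : AG G), β ((MonoidAlgebra.single q (1 : ℤ) : ZQ G) • m) =
      (MonoidAlgebra.single (θ q) (1 : ℤ) : ZQ G') • β m := by
    intro q m
    rw [hβ, hβ, h1, smul_smul, smul_smul, mul_comm]
  have b2 : ∀ a, bd G' (β a) = MonoidAlgebra.mapDomainRingHom ℤ θ.toMonoidHom (bd G a) := by
    intro a
    rw [hβ, map_smul, h2, smul_eq_mul, ← mul_assoc, Units.inv_mul, one_mul]
  have b3 : ∀ a b, β (a + b) = β a + β b := by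
    intro a b
    rw [hβ, hβ, hβ, map_add, smul_add]
  have b4 : Function.Injective β := by
    intro a b hab
    have h3 : α a = α b := by rw [← hβη, ← hβη, hab]
    exact α.injective h3
  have b5 : Function.Surjective β := by
    intro b
    obtain ⟨a, ha⟩ := α.surjective ((η : ZQ G') • b)
    refine ⟨a, ?_⟩
    rw [hβ, ha, smul_smul, Units.inv_mul, one_smul]
  have hmap : ∀ q : Abelianization G, MonoidAlgebra.mapDomainRingHom ℤ θ.toMonoidHom
      (MonoidAlgebra.single q (1 : ℤ) : ZQ G) = (MonoidAlgebra.single (θ q) (1 : ℤ) : ZQ G') := by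
    intro q
    rw [arr_map_single]
    rfl
  have hF : ∀ g : G, ∃ g' : G', Abelianization.of g' = θ (Abelianization.of g) ∧ dd g' = β (dd g) := by
    intro g
    apply dd_exact
    rw [b2, bd_dd, map_sub, map_one]
    unfold qq
    rw [hmap]
  choose F hF1 hF2 using hF
  have hqF : ∀ g, (qq (F g) : ZQ G') = MonoidAlgebra.single (θ (Abelianization.of g)) (1 : ℤ) := by
    intro g
    unfold qq
    rw [hF1]
  have hmul : ∀ g h, F (g * h) = F g * F h := by
    intro g h
    apply dd_inj hG'
    rw [hF2, dd_mul, b3, dd_mul (F g) (F h), hqF, hF2, hF2]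
    congr 1
    exact b1 _ _
  have hinj : Function.Injective F := by
    intro g h hgh
    apply dd_inj hG
    apply b4
    rw [← hF2, ← hF2, hgh]
  have hsurj : Function.Surjective F := by
    intro g'
    obtain ⟨a, ha⟩ := b5 (dd g')
    have h3 : bd G a = MonoidAlgebra.single (θ.symm (Abelianization.of g')) (1 : ℤ) - 1 := by
      have h4 : Function.Injective
          (MonoidAlgebra.mapDomainRingHom ℤ θ.toMonoidHom : ZQ G →+* ZQ G') :=
        MonoidAlgebra.mapDomain_injective θ.injective
      apply h4
      rw [← b2, ha, bd_dd, map_sub, map_one, hmap, MulEquiv.apply_symm_apply]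
      rfl
    obtain ⟨g, -, hg⟩ := dd_exact a _ h3
    refine ⟨g, ?_⟩
    apply dd_inj hG'
    rw [hF2, hg, ha]
  exact ⟨MulEquiv.ofBijective (MonoidHom.mk' F hmul) ⟨hinj, hsurj⟩⟩

end Pool.Agent.MET
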