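import Pool.Agent.Lib_helper53.MET.Base

/-! # MP_760942_al, block SCH -/

set_option autoImplicit false

namespace Pool.Agent.MET

theorem sch_tw_symm {k : ℕ} (σ : (Fin k → ℤ) ≃+ (Fin k → ℤ)) (a : L k) : tw σ.symm (tw σ a) = a := by
  refine L_induction (motive := fun a => tw σ.symm (tw σ a) = a) a ?_ ?_ ?_ ?_
  · simp
  · intro a b ha hb
    rw [map_add, map_add, ha, hb]
  · intro a ha
    rw [map_neg, map_neg, ha]
  · intro v
    rw [tw_xp, tw_xp, AddEquiv.symm_apply_apply]

theorem sch_tw_symm' {k : ℕ} (σ : (Fin k → ℤ) ≃+ (Fin k → ℤ)) (a : L k) : tw σ (tw σ.symm a) = a := by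
  have h := sch_tw_symm σ.symm a
  rwa [AddEquiv.symm_symm] at h

/-- the semilinear coordinate map -/
noncomputable def schS {k : ℕ} (σ : (Fin k → ℤ) ≃+ (Fin k → ℤ)) (b : ℕ) :
    (Fin b → L k) ≃+ (Fin b → L k) where
  toFun x i := tw σ (x i)
  invFun x i := tw σ.symm (x i)
  left_inv x := by
    funext i
    exact sch_tw_symm σ (x i)
  right_inv x := by
    funext i
    exact sch_tw_symm' σ (x i)
  map_add' x y := by
    funext i
    exact map_add _ _ _

theorem schS_apply {k : ℕ} (σ : (Fin k → ℤ) ≃+ (Fin k → ℤ)) (b : ℕ) (x : Fin b → L k) (i : Fin b) :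
    schS σ b x i = tw σ (x i) := rfl

theorem schS_smul {k : ℕ} (σ : (Fin k → ℤ) ≃+ (Fin k → ℤ)) (b : ℕ) (c : L k) (x : Fin b → L k) :
    schS σ b (c • x) = tw σ c • schS σ b x := by
  funext i
  simp [schS_apply]

theorem schS_single {k : ℕ} (σ : (Fin k → ℤ) ≃+ (Fin k → ℤ)) (b : ℕ) (i : Fin b) :
    schS σ b (Pi.single i 1) = Pi.single i 1 := by
  funext j
  rw [schS_apply]
  by_cases h : j = i
  · subst h
    simp
  · simp [Pi.single_apply, h]

theorem sch_semi {k : ℕ} (σ : (Fin k → ℤ) ≃+ (Fin k → ℤ)) {X X' : Type*} [AddCommGroup X] [Module (L k) X]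
    [AddCommGroup X'] [Module (L k) X'] (φ : X →+ X')
    (hφ : ∀ (v : Fin k → ℤ) (x : X), φ ((xp v : L k) • x) = (xp (σ v) : L k) • φ x) (c : L k) (x : X) :
    φ (c • x) = tw σ c • φ x := by
  refine L_induction (motive := fun c => φ (c • x) = tw σ c • φ x) c ?_ ?_ ?_ ?_
  · simp
  · intro a b ha hb
    rw [add_smul, map_add, ha, hb, map_add, add_smul]
  · intro a ha
    rw [neg_smul, map_neg, ha, map_neg, neg_smul]
  · intro v
    rw [tw_xp, hφ]

/-- the linear map with given values on the basis -/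
noncomputable def schU {k b : ℕ} {Y : Type*} [AddCommGroup Y] [Module (L k) Y] (u : Fin b → Y) :
    (Fin b → L k) →ₗ[L k] Y := Fintype.linearCombination (L k) u

theorem schU_apply {k b : ℕ} {Y : Type*} [AddCommGroup Y] [Module (L k) Y] (u : Fin b → Y)
    (x : Fin b → L k) : schU u x = ∑ i, x i • u i := rfl

theorem sch_pi {k b : ℕ} {Y : Type*} [AddCommGroup Y] [Module (L k) Y] (π : (Fin b → L k) →ₗ[L k] Y)
    (x : Fin b → L k) : π x = ∑ i, x i • π (Pi.single i 1) := by
  conv_lhs => rw [pi_eq_sum_univ x, map_sum]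
  refine Finset.sum_congr rfl fun i _ => ?_
  rw [map_smul]
  congr 2
  funext j
  simp [Pi.single_apply, eq_comm]

/-- SCH: Schanuel's lemma, semilinear -/
theorem schanuel {k b b' : ℕ} (σ : (Fin k → ℤ) ≃+ (Fin k → ℤ)) {X X' : Type} [AddCommGroup X] [Module (L k) X]
    [AddCommGroup X'] [Module (L k) X'] (π : (Fin b → L k) →ₗ[L k] X) (π' : (Fin b' → L k) →ₗ[L k] X')
    (φ : X ≃+ X') (hφ : ∀ (v : Fin k → ℤ) (x : X), φ ((xp v : L k) • x) = (xp (σ v) : L k) • φ x)
    (hr : ∀ x : X, (∃ m, π m = x) ↔ (∃ m, π' m = φ x)) :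
    ∃ E : ((Fin b → L k) × (Fin b' → L k)) ≃+ ((Fin b' → L k) × (Fin b → L k)),
      (∀ (v : Fin k → ℤ) m, E ((xp v : L k) • m) = (xp (σ v) : L k) • E m) ∧ ∀ m, π' (E m).1 = φ (π m.1) := by
  have hφ' : ∀ (c : L k) (x : X), φ (c • x) = tw σ c • φ x :=
    sch_semi σ (φ : X →+ X') hφ
  have h1 : ∀ i : Fin b, ∃ m, π' m = φ (π (Pi.single i 1)) := fun i => (hr _).1 ⟨_, rfl⟩
  have h2 : ∀ j : Fin b', ∃ m, φ (π m) = π' (Pi.single j 1) := by
    intro j
    obtain ⟨m, hm⟩ := (hr (φ.symm (π' (Pi.single j 1)))).2 ⟨_, by rw [AddEquiv.apply_symm_apply]⟩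
    exact ⟨m, by rw [hm, AddEquiv.apply_symm_apply]⟩
  choose u hu using h1
  choose u' hu' using h2
  have k1 : ∀ x : Fin b → L k, π' (schU u (schS σ b x)) = φ (π x) := by
    intro x
    rw [schU_apply, map_sum, sch_pi π x, map_sum]
    refine Finset.sum_congr rfl fun i _ => ?_
    rw [map_smul, hu, hφ', schS_apply]
  have k2 : ∀ y : Fin b' → L k, φ (π (schU u' y)) = π' (schS σ b' y) := by
    intro y
    rw [schU_apply, map_sum, map_sum, sch_pi π' (schS σ b' y)]
    refine Finset.sum_congr rfl fun i _ => ?_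
    rw [map_smul, hφ', hu', schS_apply]
  refine ⟨{ toFun := fun m => (schS σ b' m.2 + schU u (schS σ b (m.1 - schU u' m.2)),
              schS σ b (m.1 - schU u' m.2))
            invFun := fun m => ((schS σ b).symm m.2 + schU u' ((schS σ b').symm (m.1 - schU u m.2)),
              (schS σ b').symm (m.1 - schU u m.2))
            left_inv := ?_
            right_inv := ?_
            map_add' := ?_ }, ?_, ?_⟩
  · rintro ⟨x, y⟩
    simp
  · rintro ⟨x, y⟩
    simp
  · rintro ⟨x, y⟩ ⟨x', y'⟩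
    ext1
    · simp only [Prod.mk_add_mk, map_add, map_sub]
      abel
    · simp only [Prod.mk_add_mk, map_add, map_sub]
      abel
  · rintro v ⟨x, y⟩
    show (schS σ b' ((xp v : L k) • y) + schU u (schS σ b ((xp v : L k) • x - schU u' ((xp v : L k) • y))),
              schS σ b ((xp v : L k) • x - schU u' ((xp v : L k) • y))) =
      (xp (σ v) : L k) • (schS σ b' y + schU u (schS σ b (x - schU u' y)),
              schS σ b (x - schU u' y))
    rw [map_smul (schU u'), ← smul_sub, schS_smul, schS_smul, tw_xp, map_smul, Prod.smul_mk, smul_add]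
  · rintro ⟨x, y⟩
    show π' (schS σ b' y + schU u (schS σ b (x - schU u' y))) = φ (π x)
    rw [map_add, k1, ← k2, ← map_add, ← map_add]
    congr 2
    abel

end Pool.Agent.MET
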