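import Pool.Agent.Lib_helper24.MET.SCH

/-! # MP_760942_al, block SIM -/

set_option autoImplicit false

namespace Pool.Agent.MET

/-- the matrix action is compatible with the change of variables -/
theorem sim_mulVec {k m : ℕ} (σ : (Fin k → ℤ) ≃+ (Fin k → ℤ)) (A : Matrix (Fin m) (Fin m) (L k))
    (x : Fin m → L k) : schS σ m (A.mulVec x) = (A.map (tw σ)).mulVec (schS σ m x) := by
  funext i
  rw [schS_apply]
  simp only [Matrix.mulVec, dotProduct, map_sum, map_mul, Matrix.map_apply, schS_apply]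

/-- SIM -/
theorem sim_iff (p : SCode) : Sim p ↔
    ∃ (σ : (Fin p.1 → ℤ) ≃+ (Fin p.1 → ℤ)) (Φ : (Fin p.2.1 → L p.1) ≃+ (Fin p.2.1 → L p.1)),
      (∀ (v : Fin p.1 → ℤ) (x : Fin p.2.1 → L p.1), Φ ((xp v : L p.1) • x) = (xp (σ v) : L p.1) • Φ x) ∧
      ∀ x : Fin p.2.1 → L p.1,
        Φ ((mat p.1 p.2.1 p.2.2.1).mulVec x) = (mat p.1 p.2.1 p.2.2.2).mulVec (Φ x) := by
  obtain ⟨k, m, A, B⟩ := p
  show Sim (k, m, A, B) ↔ ∃ (σ : (Fin k → ℤ) ≃+ (Fin k → ℤ)) (Φ : (Fin m → L k) ≃+ (Fin m → L k)),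
      (∀ (v : Fin k → ℤ) (x : Fin m → L k), Φ ((xp v : L k) • x) = (xp (σ v) : L k) • Φ x) ∧
      ∀ x : Fin m → L k, Φ ((mat k m A).mulVec x) = (mat k m B).mulVec (Φ x)
  constructor
  · rintro ⟨σ, U, hU⟩
    change (U : Matrix (Fin m) (Fin m) (L k)) * (mat k m A).map (tw σ) =
      mat k m B * (U : Matrix (Fin m) (Fin m) (L k)) at hU
    have e1 : ∀ x : Fin m → L k, ((U⁻¹ : GL (Fin m) (L k)) : Matrix (Fin m) (Fin m) (L k)).mulVec
        ((U : Matrix (Fin m) (Fin m) (L k)).mulVec x) = x := by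
      intro x
      rw [Matrix.mulVec_mulVec, ← Units.val_mul, inv_mul_cancel, Units.val_one, Matrix.one_mulVec]
    have e2 : ∀ x : Fin m → L k, (U : Matrix (Fin m) (Fin m) (L k)).mulVec
        (((U⁻¹ : GL (Fin m) (L k)) : Matrix (Fin m) (Fin m) (L k)).mulVec x) = x := by
      intro x
      rw [Matrix.mulVec_mulVec, ← Units.val_mul, mul_inv_cancel, Units.val_one, Matrix.one_mulVec]
    refine ⟨σ, { toFun := fun x => (U : Matrix (Fin m) (Fin m) (L k)).mulVec (schS σ m x)
                 invFun := fun x => (schS σ m).symm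
                  (((U⁻¹ : GL (Fin m) (L k)) : Matrix (Fin m) (Fin m) (L k)).mulVec x)
                 left_inv := fun x => by
                  show (schS σ m).symm (((U⁻¹ : GL (Fin m) (L k)) : Matrix (Fin m) (Fin m) (L k)).mulVec
                    ((U : Matrix (Fin m) (Fin m) (L k)).mulVec (schS σ m x))) = x
                  rw [e1, AddEquiv.symm_apply_apply]
                 right_inv := fun x => by
                  show (U : Matrix (Fin m) (Fin m) (L k)).mulVec (schS σ m ((schS σ m).symm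
                    (((U⁻¹ : GL (Fin m) (L k)) : Matrix (Fin m) (Fin m) (L k)).mulVec x))) = x
                  rw [AddEquiv.apply_symm_apply, e2]
                 map_add' := fun x y => by rw [map_add, Matrix.mulVec_add] }, ?_, ?_⟩
    · intro v x
      show (U : Matrix (Fin m) (Fin m) (L k)).mulVec (schS σ m ((xp v : L k) • x)) =
        (xp (σ v) : L k) • (U : Matrix (Fin m) (Fin m) (L k)).mulVec (schS σ m x)
      rw [schS_smul, tw_xp, Matrix.mulVec_smul]
    · intro x
      show (U : Matrix (Fin m) (Fin m) (L k)).mulVec (schS σ m ((mat k m A).mulVec x)) =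
        (mat k m B).mulVec ((U : Matrix (Fin m) (Fin m) (L k)).mulVec (schS σ m x))
      rw [sim_mulVec, Matrix.mulVec_mulVec, Matrix.mulVec_mulVec, hU]
  · rintro ⟨σ, Φ, h1, h2⟩
    have h1' : ∀ (c : L k) (x : Fin m → L k), Φ (c • x) = tw σ c • Φ x :=
      sch_semi σ (Φ : (Fin m → L k) →+ (Fin m → L k)) h1
    -- the linear automorphism `Φ ∘ S⁻¹`
    let Ψ : (Fin m → L k) ≃ₗ[L k] (Fin m → L k) :=
      { ((schS σ m).symm.trans Φ) with
        map_smul' := by
          intro c x
          show Φ ((schS σ m).symm (c • x)) = c • Φ ((schS σ m).symm x)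
          have h3 : (schS σ m).symm (c • x) = tw σ.symm c • (schS σ m).symm x := by
            apply (schS σ m).injective
            rw [AddEquiv.apply_symm_apply, schS_smul, AddEquiv.apply_symm_apply, sch_tw_symm']
          rw [h3, h1', sch_tw_symm'] }
    have hΨ : ∀ x, Ψ (schS σ m x) = Φ x := by
      intro x
      show Φ ((schS σ m).symm (schS σ m x)) = Φ x
      rw [AddEquiv.symm_apply_apply]
    let U : GL (Fin m) (L k) :=
      ⟨LinearMap.toMatrix' (Ψ : (Fin m → L k) →ₗ[L k] (Fin m → L k)),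
        LinearMap.toMatrix' (Ψ.symm : (Fin m → L k) →ₗ[L k] (Fin m → L k)),
        by rw [← LinearMap.toMatrix'_comp, LinearEquiv.comp_coe, LinearEquiv.symm_trans_self,
          LinearEquiv.refl_toLinearMap, LinearMap.toMatrix'_id],
        by rw [← LinearMap.toMatrix'_comp, LinearEquiv.comp_coe, LinearEquiv.self_trans_symm,
          LinearEquiv.refl_toLinearMap, LinearMap.toMatrix'_id]⟩
    have hU : ∀ x, (U : Matrix (Fin m) (Fin m) (L k)).mulVec x = Ψ x := by
      intro x
      exact LinearMap.toMatrix'_mulVec _ x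
    refine ⟨σ, U, ?_⟩
    show (U : Matrix (Fin m) (Fin m) (L k)) * (mat k m A).map (tw σ) =
      mat k m B * (U : Matrix (Fin m) (Fin m) (L k))
    apply Matrix.toLin'.injective
    apply LinearMap.ext
    intro y
    obtain ⟨x, rfl⟩ := (schS σ m).surjective y
    rw [Matrix.toLin'_apply, Matrix.toLin'_apply, ← Matrix.mulVec_mulVec, ← Matrix.mulVec_mulVec,
      ← sim_mulVec, hU, hU, hΨ, hΨ, h2]

end Pool.Agent.MET
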