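import Pool.Agent.Lib_helper53.MET.Base

/-! # MP_760942_al, block UPA -/

set_option autoImplicit false

namespace Pool.Agent.MET

theorem upa_ind {G : Type*} [Group G] {motive : ZQ G → Prop} (a : ZQ G) (h0 : motive 0)
    (hadd : ∀ a b, motive a → motive b → motive (a + b)) (hneg : ∀ a, motive a → motive (-a))
    (hx : ∀ q : Abelianization G, motive (MonoidAlgebra.single q (1 : ℤ))) : motive a := by
  induction a using MonoidAlgebra.induction_linear with
  | zero => exact h0
  | add f g hf hg => exact hadd _ _ hf hg
  | single v r =>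
    have key : ∀ r : ℤ, motive (MonoidAlgebra.single v r) := by
      intro r
      induction r using Int.induction_on with
      | zero => simpa using h0
      | succ n ih =>
        have : (MonoidAlgebra.single v ((n : ℤ) + 1) : ZQ G) =
            MonoidAlgebra.single v (n : ℤ) + MonoidAlgebra.single v (1 : ℤ) :=
          MonoidAlgebra.single_add _ _ _
        rw [this]; exact hadd _ _ ih (hx v)
      | pred n ih =>
        have : (MonoidAlgebra.single v (-(n : ℤ) - 1) : ZQ G)
            = MonoidAlgebra.single v (-(n : ℤ)) + -MonoidAlgebra.single v (1 : ℤ) := by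
          rw [sub_eq_add_neg, MonoidAlgebra.single_add, ← MonoidAlgebra.single_neg]
        rw [this]; exact hadd _ _ ih (hneg _ (hx v))
    exact key r

/-- UPA -/
theorem upa {G : Type*} [Group G] {B : Type*} [AddCommGroup B] (τ : Abelianization G → B →+ B)
    (h1 : ∀ x, τ 1 x = x) (hm : ∀ q q' x, τ (q * q') x = τ q (τ q' x)) (δ : G → B)
    (hδ : ∀ g h, δ (g * h) = δ g + τ (Abelianization.of g) (δ h)) :
    ∃ f : AG G →+ B, (∀ g, f (dd g) = δ g) ∧
      ∀ q m, f ((MonoidAlgebra.single q (1 : ℤ) : ZQ G) • m) = τ q (f m) := by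
  let F : Abelianization G →* AddMonoid.End B :=
    { toFun := fun v => τ v
      map_one' := by ext x; exact h1 x
      map_mul' := fun v w => by ext x; exact hm _ _ x }
  let Λ : ZQ G →ₐ[ℤ] AddMonoid.End B := MonoidAlgebra.lift ℤ (AddMonoid.End B) (Abelianization G) F
  let _ : Module (ZQ G) B := Module.compHom B (Λ : ZQ G →+* AddMonoid.End B)
  have hs : ∀ (a : ZQ G) (x : B), a • x = Λ a x := fun a x => rfl
  have hx : ∀ (q : Abelianization G) (x : B), (MonoidAlgebra.single q (1 : ℤ) : ZQ G) • x = τ q x := by
    intro v x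
    rw [hs]
    have : Λ (MonoidAlgebra.single v (1 : ℤ)) = τ v := by
      have := MonoidAlgebra.lift_single (R := ℤ) (A := AddMonoid.End B) F v (1 : ℤ)
      rw [one_smul] at this
      exact this
    rw [this]; rfl
  have hle : Submodule.span (ZQ G) {m : G →₀ ZQ G | ∃ g h : G,
      m = Finsupp.single (g * h) 1 - Finsupp.single g 1 - Finsupp.single h (qq g)} ≤
      LinearMap.ker (Finsupp.linearCombination (ZQ G) δ) := by
    rw [Submodule.span_le]
    rintro m ⟨g, h, rfl⟩
    simp only [SetLike.mem_coe, LinearMap.mem_ker, map_sub, Finsupp.linearCombination_single, one_smul]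
    rw [show (qq g : ZQ G) • δ h = τ (Abelianization.of g) (δ h) from hx _ _, hδ]
    abel
  refine ⟨(Submodule.liftQ _ (Finsupp.linearCombination (ZQ G) δ) hle).toAddMonoidHom, ?_, ?_⟩
  · intro g
    show Finsupp.linearCombination (ZQ G) δ (Finsupp.single g 1) = δ g
    rw [Finsupp.linearCombination_single, one_smul]
  · intro q m
    show Submodule.liftQ _ (Finsupp.linearCombination (ZQ G) δ) hle _ =
      τ q (Submodule.liftQ _ (Finsupp.linearCombination (ZQ G) δ) hle m)
    rw [map_smul, hx]

/-- UPA -/
theorem ag_ext {G : Type*} [Group G] {B : Type*} [AddCommGroup B] (f f' : AG G →+ B)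
    (h : ∀ q g, f ((MonoidAlgebra.single q (1 : ℤ) : ZQ G) • dd g) = f' ((MonoidAlgebra.single q (1 : ℤ) : ZQ G) • dd g)) :
    f = f' := by
  have key : ∀ (a : ZQ G) (g : G), f (a • dd g) = f' (a • dd g) := by
    intro a g
    refine upa_ind (motive := fun a => f (a • dd g) = f' (a • dd g)) a ?_ ?_ ?_ (fun q => h q g)
    · rw [zero_smul, map_zero, map_zero]
    · intro a b ha hb
      rw [add_smul, map_add, map_add, ha, hb]
    · intro a ha
      rw [neg_smul, map_neg, map_neg, ha]
  ext m
  obtain ⟨x, rfl⟩ := Submodule.Quotient.mk_surjective _ m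
  induction x using Finsupp.induction_linear with
  | zero => rw [Submodule.Quotient.mk_zero, map_zero, map_zero]
  | add x y hx hy => rw [Submodule.Quotient.mk_add, map_add, map_add, hx, hy]
  | single g a =>
    have e : (Submodule.Quotient.mk (Finsupp.single g a) : AG G) = a • dd g := by
      unfold dd
      rw [← Submodule.Quotient.mk_smul, Finsupp.smul_single, smul_eq_mul, mul_one]
    rw [e, key]

/-- UPA -/
theorem dd_mul {G : Type*} [Group G] (g h : G) : dd (g * h) = dd g + qq g • dd h := by
  unfold dd
  rw [← Submodule.Quotient.mk_smul, ← Submodule.Quotient.mk_add, Submodule.Quotient.eq]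
  apply Submodule.subset_span
  refine ⟨g, h, ?_⟩
  rw [Finsupp.smul_single, smul_eq_mul, mul_one, sub_add_eq_sub_sub]

/-- UPA -/
theorem bd_dd {G : Type*} [Group G] (g : G) : bd G (dd g) = qq g - 1 := by
  show Finsupp.linearCombination (ZQ G) (fun g : G => qq g - 1) (Finsupp.single g 1) = qq g - 1
  rw [Finsupp.linearCombination_single, one_smul]

end Pool.Agent.MET
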